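import Mathlib
import Pool.Agent.H.MP_ea5a80_co.Main

set_option autoImplicit false

namespace Pool.Agent.Results.MP_ea5a80_co.Strict

/-- a monochromatic monotone path of length `n` in the `k`-uniform complete ordered hypergraph -/
def HasPath (k n : ℕ) {N q : ℕ} (χ : Finset (Fin N) → Fin q) : Prop :=
  ∃ l : List (Fin N), l.Pairwise (· < ·) ∧ l.length = n + k - 1 ∧
    ∃ i : Fin q, ∀ j < n, χ ((l.drop j).take k).toFinset = i

def Trans (k : ℕ) {N q : ℕ} (χ : Finset (Fin N) → Fin q) : Prop :=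
  ∀ l : List (Fin N), l.Pairwise (· < ·) → l.length = k + 1 → ∀ i : Fin q,
    χ (l.take k).toFinset = i → χ (l.drop 1).toFinset = i →
      ∀ T : Finset (Fin N), T ⊆ l.toFinset → T.card = k → χ T = i

noncomputable def Ram (k q n : ℕ) : ℕ∞ :=
  ⨅ (N : ℕ) (_ : ∀ χ : Finset (Fin N) → Fin q, HasPath k n χ), (N : ℕ∞)

noncomputable def RamTrans (k q n : ℕ) : ℕ∞ :=
  ⨅ (N : ℕ) (_ : ∀ χ : Finset (Fin N) → Fin q, Trans k χ → HasPath k n χ), (N : ℕ∞)

theorem fin2 {x y : Fin 2} (h : x = 0 ↔ y = 0) : x = y := by revert x y; decide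

theorem card4 {α : Type} [LinearOrder α] {a b c d : α} (h1 : a < b) (h2 : b < c) (h3 : c < d) :
    ([a, b, c, d].toFinset).card = 4 := by
  rw [List.toFinset_card_of_nodup]
  · rfl
  · simp [h1.ne, h2.ne, h3.ne, (h1.trans h2).ne, (h2.trans h3).ne, (h1.trans (h2.trans h3)).ne]

theorem up (χ : Finset (Fin 66) → Fin 2) (hT : Trans 4 χ) : HasPath 4 3 χ := by
  by_contra hP
  have hF : ∀ a b, a < b → b < 66 → Fin.ofNat 66 a < Fin.ofNat 66 b := by
    intro a b h1 h2
    simp only [Fin.lt_def, Fin.val_ofNat]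
    omega
  refine Pool.Agent.H.MP_ea5a80_co.upper
    (fun a b c d => χ [Fin.ofNat 66 a, Fin.ofNat 66 b, Fin.ofNat 66 c, Fin.ofNat 66 d].toFinset = 0) ?_ ?_
  · intro a b c d e h1 h2 h3 h4 h5 h
    have k1 := hF a b h1 (by omega)
    have k2 := hF b c h2 (by omega)
    have k3 := hF c d h3 (by omega)
    have k4 := hF d e h4 h5
    generalize Fin.ofNat 66 a = a, Fin.ofNat 66 b = b, Fin.ofNat 66 c = c, Fin.ofNat 66 d = d,
      Fin.ofNat 66 e = e at *
    have := hT [a, b, c, d, e] (by simp; omega) rfl _ rfl (fin2 h).symm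
    refine ⟨?_, ?_, ?_⟩ <;> rw [this]
    · rfl
    · intro x; simp; tauto
    · exact card4 (k1.trans k2) k3 k4
    · rfl
    · intro x; simp; tauto
    · exact card4 k1 (k2.trans k3) k4
    · rfl
    · intro x; simp; tauto
    · exact card4 k1 k2 (k3.trans k4)
  · intro a b c d e f h1 h2 h3 h4 h5 h6 h h'
    have k1 := hF a b h1 (by omega)
    have k2 := hF b c h2 (by omega)
    have k3 := hF c d h3 (by omega)
    have k4 := hF d e h4 (by omega)
    have k5 := hF e f h5 h6
    generalize Fin.ofNat 66 a = a, Fin.ofNat 66 b = b, Fin.ofNat 66 c = c, Fin.ofNat 66 d = d,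
      Fin.ofNat 66 e = e, Fin.ofNat 66 f = f at *
    refine hP ⟨[a, b, c, d, e, f], by simp; omega, rfl, χ [b, c, d, e].toFinset, fun j hj => ?_⟩
    interval_cases j
    exacts [fin2 h, rfl, (fin2 h').symm]

theorem low (N : ℕ) (hN : N ≤ 66) : ∃ χ : Finset (Fin N) → Fin 2, ¬ HasPath 4 3 χ := by
  classical
  obtain ⟨col, hcol⟩ := Pool.Agent.H.MP_ea5a80_co.lower
  let c : List ℕ → Prop := fun l => col (l.getD 0 0) (l.getD 1 0) (l.getD 2 0) (l.getD 3 0)
  refine ⟨fun T => if c ((T.sort (· ≤ ·)).map Fin.val) then 0 else 1, ?_⟩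
  rintro ⟨l, hl, hlen, i, hi⟩
  have key : ∀ j < 3, c (((l.drop j).take 4).map Fin.val) ↔ i = 0 := by
    intro j hj
    have h1 : ((l.drop j).take 4).Pairwise (· < ·) :=
      hl.sublist ((List.take_sublist _ _).trans (List.drop_sublist _ _))
    have h2 := hi j hj
    simp only at h2
    rw [(List.toFinset_sort (· ≤ ·) (h1.imp ne_of_lt)).mpr (h1.imp le_of_lt)] at h2
    rw [← h2]
    split_ifs with h
    exacts [iff_of_true h rfl, iff_of_false h (by decide)]
  match l, hlen, hl, key with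
  | [a, b, c', d, e, f], _, hl, key =>
    simp only [List.pairwise_cons, List.mem_cons, List.not_mem_nil, or_false, forall_eq_or_imp, forall_eq,
      Fin.lt_def] at hl
    exact hcol a b c' d e f (by omega) (by omega) (by omega) (by omega) (by omega) (by omega)
      ((key 0 (by norm_num)).trans (key 1 (by norm_num)).symm)
      ((key 1 (by norm_num)).trans (key 2 (by norm_num)).symm)

theorem result : RamTrans 4 2 3 < Ram 4 2 3 := by
  have h1 : RamTrans 4 2 3 ≤ (66 : ℕ) := iInf₂_le 66 up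
  have h2 : ((67 : ℕ) : ℕ∞) ≤ Ram 4 2 3 := le_iInf₂ fun N hN => by
    by_contra h
    obtain ⟨χ, hχ⟩ := low N (by have : N < 67 := by exact_mod_cast not_le.mp h
                                omega)
    exact hχ (hN χ)
  exact h1.trans_lt (lt_of_lt_of_le (by exact_mod_cast (by norm_num : 66 < 67)) h2)

end Pool.Agent.Results.MP_ea5a80_co.Strict
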